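import Pool.Agent.H933R2.Hopf.Main

/-!
# The differential calculus on the orthonormal frame bundle of a closed Riemannian six-manifold
-/

set_option autoImplicit false

open scoped BigOperators
open MeasureTheory

namespace Pool.Agent.K1H63.Boch

open Hopf6

/-- Kronecker delta -/
def kd (a b : Fin 6) : ℝ := if a = b then 1 else 0

/-- `D` is a derivation of the algebra `S` of functions (a smooth vector field). -/
structure IsField {P : Type} (S : Subalgebra ℝ (P → ℝ)) (D : (P → ℝ) → P → ℝ) : Prop where
  mem : ∀ f ∈ S, D f ∈ S
  add : ∀ f ∈ S, ∀ g ∈ S, D (f + g) = D f + D g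
  smul : ∀ (c : ℝ), ∀ f ∈ S, D (c • f) = c • D f
  leibniz : ∀ f ∈ S, ∀ g ∈ S, D (f * g) = f * D g + g * D f

/-- the infinitesimal rotation of the components `T` in the plane of the indices `a`, `b` (the action
of the matrix `E_ba - E_ab`) -/
def rot (T : Ten) (a b i j k l : Fin 6) : ℝ :=
  (kd a i * T b j k l - kd b i * T a j k l) + (kd a j * T i b k l - kd b j * T i a k l)
    + (kd a k * T i j b l - kd b k * T i j a l) + (kd a l * T i j k b - kd b l * T i j k a)

/-- The differential calculus on the orthonormal frame bundle `P` of a closed Riemannian manifold of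
dimension six, with its natural measure `μ`. -/
structure FrameCalculus (P : Type) [MeasurableSpace P] (μ : Measure P) where
  /-- the smooth functions -/
  S : Subalgebra ℝ (P → ℝ)
  /-- the canonical horizontal vector fields -/
  H : Fin 6 → (P → ℝ) → P → ℝ
  /-- the fundamental vertical vector fields -/
  V : Fin 6 → Fin 6 → (P → ℝ) → P → ℝ
  /-- the components of the curvature tensor in the frame -/
  R : Fin 6 → Fin 6 → Fin 6 → Fin 6 → P → ℝ
  /-- smooth functions are integrable (`P` is compact) -/
  integrable : ∀ f ∈ S, Integrable f μ
  H_field : ∀ i, IsField S (H i)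
  V_field : ∀ a b, IsField S (V a b)
  R_mem : ∀ a b c d, R a b c d ∈ S
  /-- the algebraic symmetries of the curvature tensor -/
  curv : ∀ p, IsCurv (fun a b c d => R a b c d p)
  /-- the second Bianchi identity -/
  bianchi2 : ∀ m a b c d p,
    H m (R a b c d) p + H a (R b m c d) p + H b (R m a c d) p = 0
  /-- Cartan's structure equation (the Levi-Civita connection has no torsion, its curvature is `R`) -/
  cartan : ∀ (i j : Fin 6), ∀ f ∈ S, ∀ p, H i (H j f) p - H j (H i f) p =
    (1 / 2) * ∑ a, ∑ b, R i j a b p * V a b f p
  /-- the curvature is a tensor: the rotations of the frame act on its components -/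
  equivariant : ∀ a b i j k l p, V a b (R i j k l) p =
    rot (fun a b c d => R a b c d p) a b i j k l
  /-- the horizontal fields preserve the measure (the divergence theorem on a closed manifold) -/
  stokes : ∀ (i : Fin 6), ∀ f ∈ S, ∫ p, H i f p ∂μ = 0

namespace FrameCalculus

variable {P : Type} [MeasurableSpace P] {μ : Measure P} (F : FrameCalculus P μ)

/-- the curvature tensor at a frame -/
def T (p : P) : Ten := fun a b c d => F.R a b c d p

/-- The Gauss-Bonnet-Chern integrand, normalised so that its integral over a closed Riemannian
manifold of dimension six is the Euler characteristic. -/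
noncomputable def gbc (p : P) : ℝ := 1 / ((8 * Real.pi) ^ 3 * 6) * gb (F.T p)

end FrameCalculus

/-- the Ricci tensor of the components `R` is `c` times the identity -/
def IsEinstein (R : Ten) (c : ℝ) : Prop := ∀ a b, Rc R a b = if a = b then c else 0

/-- all sectional curvatures of the components `R` are at most `b` -/
def SecLE (R : Ten) (b : ℝ) : Prop :=
  ∀ y z : Fin 6 → ℝ, ∑ a, y a ^ 2 = 1 → ∑ a, z a ^ 2 = 1 → ∑ a, y a * z a = 0 → quad R y z ≤ b

end Pool.Agent.K1H63.Boch
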