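import Pool.Agent.H933R2.Hopf.GB
import Pool.Agent.H933R2.Hopf.Comb
import Pool.Agent.K1H63.Boch.Calculus

/-!
# The orthonormal frame bundle of a closed Riemannian six-manifold, and the Bochner formula for the
curvature tensor of an Einstein metric

A closed Riemannian manifold `M` of dimension six is represented by its orthonormal frame bundle `P`:
the algebra `S` of smooth functions on `P`, the canonical horizontal vector fields `H i`, the
fundamental vertical vector fields `V a b` (that of the matrix `E_ba - E_ab`), the components
`R a b c d` of the curvature tensor in the frame (with `R a b a b` a sectional curvature), and the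
natural measure `μ` of `P`.
-/

set_option autoImplicit false

open scoped BigOperators
open MeasureTheory

namespace Pool.Agent.K1H63.Boch

open Hopf6

/-- The differential calculus on the orthonormal frame bundle `P` of a closed Riemannian manifold of
dimension six, with its natural measure `μ`: the same data as in `FrameCalculus`, the vector fields being
derivations in the sense of Mathlib (used in the proofs only). -/
structure FrameBundle (P : Type) [MeasurableSpace P] (μ : Measure P) where
  /-- the smooth functions -/
  S : Subalgebra ℝ (P → ℝ)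
  /-- smooth functions are integrable (`P` is compact) -/
  integrable : ∀ f : S, Integrable (f : P → ℝ) μ
  /-- the canonical horizontal vector fields -/
  H : Fin 6 → Derivation ℝ S S
  /-- the fundamental vertical vector fields -/
  V : Fin 6 → Fin 6 → Derivation ℝ S S
  /-- the components of the curvature tensor in the frame -/
  R : Fin 6 → Fin 6 → Fin 6 → Fin 6 → S
  /-- the algebraic symmetries of the curvature tensor -/
  curv : ∀ p, IsCurv (fun a b c d => (R a b c d : P → ℝ) p)
  /-- the second Bianchi identity -/
  bianchi2 : ∀ m a b c d, H m (R a b c d) + H a (R b m c d) + H b (R m a c d) = 0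
  /-- Cartan's structure equation (the Levi-Civita connection has no torsion, its curvature is `R`) -/
  cartan : ∀ (i j : Fin 6) (f : S), H i (H j f) - H j (H i f) =
    (1 / 2 : ℝ) • ∑ a, ∑ b, R i j a b * V a b f
  /-- the curvature is a tensor: the rotations of the frame act on its components -/
  equivariant : ∀ a b i j k l, V a b (R i j k l) =
    (kd a i • R b j k l - kd b i • R a j k l) + (kd a j • R i b k l - kd b j • R i a k l)
    + (kd a k • R i j b l - kd b k • R i j a l) + (kd a l • R i j k b - kd b l • R i j k a)
  /-- the horizontal fields preserve the measure (the divergence theorem on a closed manifold) -/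
  stokes : ∀ (i : Fin 6) (f : S), ∫ p, (H i f : P → ℝ) p ∂μ = 0

namespace FrameBundle

variable {P : Type} [MeasurableSpace P] {μ : Measure P} (F : FrameBundle P μ)

/-- the curvature tensor at a frame -/
def T (p : P) : Ten := fun a b c d => (F.R a b c d : P → ℝ) p

/-- evaluation at a frame -/
def ev (p : P) : F.S →ₐ[ℝ] ℝ := (Pi.evalAlgHom ℝ (fun _ : P => ℝ) p).comp F.S.val

theorem ev_apply (p : P) (f : F.S) : F.ev p f = (f : P → ℝ) p := rfl

theorem ev_R (p : P) (a b c d : Fin 6) : F.ev p (F.R a b c d) = F.T p a b c d := rfl

theorem T_curv (p : P) : IsCurv (F.T p) := F.curv p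

theorem ext_ev {f g : F.S} (h : ∀ p, F.ev p f = F.ev p g) : f = g :=
  Subtype.ext (funext h)

theorem R_anti (a b c d : Fin 6) : F.R b a c d = - F.R a b c d :=
  F.ext_ev fun p => by
    rw [map_neg, ev_R, ev_R]
    exact (F.T_curv p).anti a b c d

theorem R_pair (a b c d : Fin 6) : F.R c d a b = F.R a b c d :=
  F.ext_ev fun p => (F.T_curv p).pair a b c d

/-- `|∇R|²` -/
def dR2 : F.S := ∑ m, ∑ a, ∑ b, ∑ c, ∑ d, F.H m (F.R a b c d) * F.H m (F.R a b c d)

theorem dR2_nonneg (p : P) : 0 ≤ F.ev p F.dR2 := by
  unfold dR2
  simp only [map_sum, map_mul]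
  refine Finset.sum_nonneg fun _ _ => Finset.sum_nonneg fun _ _ => Finset.sum_nonneg fun _ _ =>
    Finset.sum_nonneg fun _ _ => Finset.sum_nonneg fun _ _ => mul_self_nonneg _

/-- the metric is Einstein with Ricci curvature `c` -/
def Einstein (c : ℝ) : Prop := ∀ p a b, Rc (F.T p) a b = if a = b then c else 0

theorem ric_S {c : ℝ} (hE : F.Einstein c) (a b : Fin 6) :
    ∑ e, F.R a e b e = algebraMap ℝ F.S (if a = b then c else 0) :=
  F.ext_ev fun p => by
    rw [map_sum, AlgHom.commutes]
    exact hE p a b

theorem H_ric {c : ℝ} (hE : F.Einstein c) (m a b : Fin 6) : ∑ e, F.H m (F.R a e b e) = 0 := by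
  rw [← map_sum, F.ric_S hE]
  exact (F.H m).map_algebraMap _

/-- the divergence of the curvature of an Einstein metric vanishes -/
theorem div_R {c : ℝ} (hE : F.Einstein c) (b d e : Fin 6) : ∑ m, F.H m (F.R m b d e) = 0 := by
  have h : ∑ a, (F.H d (F.R a e a b) + F.H a (F.R e d a b) + F.H e (F.R d a a b)) = 0 :=
    Finset.sum_eq_zero fun a _ => F.bianchi2 d a e a b
  rw [Finset.sum_add_distrib, Finset.sum_add_distrib] at h
  have h1 : ∑ a, F.H d (F.R a e a b) = 0 := by
    rw [← F.H_ric hE d e b]
    refine Finset.sum_congr rfl fun a _ => ?_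
    rw [F.R_anti e a a b, ← F.R_pair e a a b, F.R_anti b a e a, map_neg, map_neg, neg_neg,
      F.R_pair e a b a]
  have h2 : ∑ a, F.H e (F.R d a a b) = 0 := by
    have : ∀ a, F.H e (F.R d a a b) = - F.H e (F.R d a b a) := by
      intro a
      rw [← F.R_pair d a a b, F.R_anti b a d a, map_neg, F.R_pair d a b a]
    rw [Finset.sum_congr rfl fun a _ => this a, Finset.sum_neg_distrib, F.H_ric hE e d b, neg_zero]
  rw [h1, h2, zero_add, add_zero] at h
  have h3 : ∀ a, F.H a (F.R e d a b) = F.H a (F.R a b e d) := fun a => by rw [F.R_pair a b e d]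
  rw [Finset.sum_congr rfl fun a _ => h3 a] at h
  have h4 : ∀ m, F.H m (F.R m b d e) = - F.H m (F.R m b e d) := fun m => by
    rw [← F.R_pair m b d e, F.R_anti e d m b, map_neg, F.R_pair m b e d]
  rw [Finset.sum_congr rfl fun m _ => h4 m, Finset.sum_neg_distrib, h, neg_zero]

end FrameBundle
end Pool.Agent.K1H63.Boch
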