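import Mathlib

/-!
# The finite inequality behind the upper bound theorem

`l i` are the eigenvalues of the Jacobi operator at a unit vector of an Einstein curvature tensor
(`Ric = 5`), `K i j` the sectional curvatures of the planes spanned by the eigenvectors; all are at most
`k`.
-/

set_option autoImplicit false

open scoped BigOperators

namespace Pool.Agent.K1H63.Boch

/-- the lower bound, in terms of the bound `k` of the sectional curvatures -/
noncomputable def phi (k : ℝ) : ℝ := (14500 - 31450 * k + 23520 * k ^ 2 - 5760 * k ^ 3) / 9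

theorem coreB (k a b c d e : ℝ) (kab kac kad kae kbc kbd kbe kcd kce kde : ℝ)
    (ha : a ≤ k) (hb : b ≤ k) (hc : c ≤ k) (hd : d ≤ k) (he : e ≤ k)
    (h1 : kab ≤ k) (h2 : kac ≤ k) (h3 : kad ≤ k) (h4 : kae ≤ k) (h5 : kbc ≤ k) (h6 : kbd ≤ k)
    (h7 : kbe ≤ k) (h8 : kcd ≤ k) (h9 : kce ≤ k) (h10 : kde ≤ k)
    (ra : kab + kac + kad + kae = 5 - a) (rb : kab + kbc + kbd + kbe = 5 - b)
    (rc : kac + kbc + kcd + kce = 5 - c) (rd : kad + kbd + kcd + kde = 5 - d)
    (re : kae + kbe + kce + kde = 5 - e) (hs : a + b + c + d + e = 5) :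
    phi k ≤ 1250 - 40 * (a ^ 2 + b ^ 2 + c ^ 2 + d ^ 2 + e ^ 2)
      - 96 * (a * b * kab + a * c * kac + a * d * kad + a * e * kae + b * c * kbc + b * d * kbd
        + b * e * kbe + c * d * kcd + c * e * kce + d * e * kde) := by
  have id1 : 1250 - 40 * (a ^ 2 + b ^ 2 + c ^ 2 + d ^ 2 + e ^ 2)
      - 96 * (a * b * kab + a * c * kac + a * d * kad + a * e * kae + b * c * kbc + b * d * kbd
        + b * e * kbe + c * d * kcd + c * e * kce + d * e * kde) =
      phi k + 48 * ((k - a) * (a + (24 * k - 55) / 18) ^ 2 + (k - b) * (b + (24 * k - 55) / 18) ^ 2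
        + (k - c) * (c + (24 * k - 55) / 18) ^ 2 + (k - d) * (d + (24 * k - 55) / 18) ^ 2
        + (k - e) * (e + (24 * k - 55) / 18) ^ 2
        + (k - kab) * (a + b - (24 * k + 35) / 36) ^ 2
        + (k - kac) * (a + c - (24 * k + 35) / 36) ^ 2
        + (k - kad) * (a + d - (24 * k + 35) / 36) ^ 2
        + (k - kae) * (a + e - (24 * k + 35) / 36) ^ 2
        + (k - kbc) * (b + c - (24 * k + 35) / 36) ^ 2
        + (k - kbd) * (b + d - (24 * k + 35) / 36) ^ 2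
        + (k - kbe) * (b + e - (24 * k + 35) / 36) ^ 2
        + (k - kcd) * (c + d - (24 * k + 35) / 36) ^ 2
        + (k - kce) * (c + e - (24 * k + 35) / 36) ^ 2
        + (k - kde) * (d + e - (24 * k + 35) / 36) ^ 2) := by
    unfold phi
    linear_combination
      48 * (a ^ 2 - (24 * k + 35) / 18 * a + (24 * k + 35) ^ 2 / 2592) * ra
      + 48 * (b ^ 2 - (24 * k + 35) / 18 * b + (24 * k + 35) ^ 2 / 2592) * rb
      + 48 * (c ^ 2 - (24 * k + 35) / 18 * c + (24 * k + 35) ^ 2 / 2592) * rc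
      + 48 * (d ^ 2 - (24 * k + 35) / 18 * d + (24 * k + 35) ^ 2 / 2592) * rd
      + 48 * (e ^ 2 - (24 * k + 35) / 18 * e + (24 * k + 35) ^ 2 / 2592) * re
      + (-48) * ((2 * ((24 * k - 55) / 18) * k - ((24 * k - 55) / 18) ^ 2
          + 2 * ((24 * k + 35) / 72) ^ 2 - 4 * ((24 * k + 35) / 72) * (4 * k - 5))
        + k * ((a + b + c + d + e) + 5)) * hs
  rw [id1]
  have p : ∀ u v : ℝ, u ≤ k → 0 ≤ (k - u) * v ^ 2 := fun u v hu =>
    mul_nonneg (by linarith) (sq_nonneg v)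
  have q1 := p a (a + (24 * k - 55) / 18) ha
  have q2 := p b (b + (24 * k - 55) / 18) hb
  have q3 := p c (c + (24 * k - 55) / 18) hc
  have q4 := p d (d + (24 * k - 55) / 18) hd
  have q5 := p e (e + (24 * k - 55) / 18) he
  have q6 := p kab (a + b - (24 * k + 35) / 36) h1
  have q7 := p kac (a + c - (24 * k + 35) / 36) h2
  have q8 := p kad (a + d - (24 * k + 35) / 36) h3
  have q9 := p kae (a + e - (24 * k + 35) / 36) h4
  have q10 := p kbc (b + c - (24 * k + 35) / 36) h5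
  have q11 := p kbd (b + d - (24 * k + 35) / 36) h6
  have q12 := p kbe (b + e - (24 * k + 35) / 36) h7
  have q13 := p kcd (c + d - (24 * k + 35) / 36) h8
  have q14 := p kce (c + e - (24 * k + 35) / 36) h9
  have q15 := p kde (d + e - (24 * k + 35) / 36) h10
  linarith

theorem fin_ineqB (k : ℝ) (l : Fin 5 → ℝ) (K : Fin 5 → Fin 5 → ℝ)
    (hsym : ∀ i j, K i j = K j i) (hd : ∀ i, K i i = 0) (hK : ∀ i j, i ≠ j → K i j ≤ k)
    (hrow : ∀ i, ∑ j, K i j = 5 - l i) (hl : ∀ i, l i ≤ k) (hs : ∑ i, l i = 5) :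
    phi k ≤ 1250 - 40 * ∑ i, l i ^ 2 - 48 * ∑ i, ∑ j, l i * l j * K i j := by
  have r0 := hrow 0
  have r1 := hrow 1
  have r2 := hrow 2
  have r3 := hrow 3
  have r4 := hrow 4
  simp only [Fin.sum_univ_five] at r0 r1 r2 r3 r4 hs ⊢
  rw [hsym 1 0] at r1
  rw [hsym 2 0, hsym 2 1] at r2
  rw [hsym 3 0, hsym 3 1, hsym 3 2] at r3
  rw [hsym 4 0, hsym 4 1, hsym 4 2, hsym 4 3] at r4
  rw [hsym 1 0, hsym 2 0, hsym 2 1, hsym 3 0, hsym 3 1, hsym 3 2, hsym 4 0, hsym 4 1, hsym 4 2,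
    hsym 4 3]
  rw [hd 0] at r0
  rw [hd 1] at r1
  rw [hd 2] at r2
  rw [hd 3] at r3
  rw [hd 4] at r4
  rw [hd 0, hd 1, hd 2, hd 3, hd 4]
  have h := coreB k (l 0) (l 1) (l 2) (l 3) (l 4) (K 0 1) (K 0 2)
    (K 0 3) (K 0 4) (K 1 2) (K 1 3) (K 1 4) (K 2 3) (K 2 4)
    (K 3 4) (hl 0) (hl 1) (hl 2) (hl 3) (hl 4) (hK 0 1 (by decide)) (hK 0 2 (by decide))
    (hK 0 3 (by decide)) (hK 0 4 (by decide)) (hK 1 2 (by decide)) (hK 1 3 (by decide))
    (hK 1 4 (by decide)) (hK 2 3 (by decide)) (hK 2 4 (by decide)) (hK 3 4 (by decide))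
    (by linarith) (by linarith) (by linarith) (by linarith) (by linarith) (by linarith)
  refine h.trans (le_of_eq ?_)
  ring

end Pool.Agent.K1H63.Boch
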