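import Pool.Agent.K1H63.Boch.Formula

/-!
# The Bochner formula, continued: the commutator term and the integral
-/

set_option autoImplicit false

open scoped BigOperators
open MeasureTheory

namespace Pool.Agent.K1H63.Boch

open Hopf6

section
variable {R : Ten}

theorem c1 (hR : IsCurv R) : ∑ m, ∑ a, ∑ b, ∑ c, ∑ d, ∑ q,
    R a b c d * (R m a m q * R q b c d) = I6 R := by
  have e : ∑ m, ∑ a, ∑ b, ∑ c, ∑ d, ∑ q, R a b c d * (R m a m q * R q b c d) =
      net R ![1, 2, 3, 4, 0, 1, 0, 5, 5, 2, 3, 4] := by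
    rw [net_sum6]
    simp only [T3, Matrix.cons_val, mul_assoc]
  rw [e, net_eval hR (c := 6) (v := 2) (d0 := 0) (d1 := 0) (d2 := 0) (σ := ![0, 1, 5, 2, 3, 4])
    (by decide)]
  simp only [d4s, vals, Matrix.cons_val]
  push_cast
  ring

theorem c2 (hR : IsCurv R) : ∑ m, ∑ a, ∑ b, ∑ c, ∑ d, ∑ q,
    R a b c d * (R m a b q * R m q c d) = - (I7 R / 2) := by
  have e : ∑ m, ∑ a, ∑ b, ∑ c, ∑ d, ∑ q, R a b c d * (R m a b q * R m q c d) =
      net R ![1, 2, 3, 4, 0, 1, 2, 5, 0, 5, 3, 4] := by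
    rw [net_sum6]
    simp only [T3, Matrix.cons_val, mul_assoc]
  rw [e, net_eval hR (c := 9) (v := 1) (d0 := 4) (d1 := 4) (d2 := 1) (σ := ![3, 4, 1, 2, 0, 5])
    (by decide)]
  simp only [d4s, vals, Matrix.cons_val]
  push_cast
  ring

theorem c3 (hR : IsCurv R) : ∑ m, ∑ a, ∑ b, ∑ c, ∑ d, ∑ q,
    R a b c d * (R m a c q * R m b q d) = - I8 R := by
  have e : ∑ m, ∑ a, ∑ b, ∑ c, ∑ d, ∑ q, R a b c d * (R m a c q * R m b q d) =
      net R ![1, 2, 3, 4, 0, 1, 3, 5, 0, 2, 5, 4] := by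
    rw [net_sum6]
    simp only [T3, Matrix.cons_val, mul_assoc]
  rw [e, net_eval hR (c := 11) (v := 0) (d0 := 0) (d1 := 1) (d2 := 3) (σ := ![1, 2, 3, 4, 0, 5])
    (by decide)]
  simp only [d4s, vals, Matrix.cons_val]
  push_cast
  ring

theorem c4 (hR : IsCurv R) : ∑ m, ∑ a, ∑ b, ∑ c, ∑ d, ∑ q,
    R a b c d * (R m a d q * R m b c q) = - I8 R := by
  have e : ∑ m, ∑ a, ∑ b, ∑ c, ∑ d, ∑ q, R a b c d * (R m a d q * R m b c q) =
      net R ![1, 2, 3, 4, 0, 1, 4, 5, 0, 2, 3, 5] := by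
    rw [net_sum6]
    simp only [T3, Matrix.cons_val, mul_assoc]
  rw [e, net_eval hR (c := 11) (v := 0) (d0 := 2) (d1 := 1) (d2 := 1) (σ := ![1, 2, 4, 3, 0, 5])
    (by decide)]
  simp only [d4s, vals, Matrix.cons_val]
  push_cast
  ring

theorem I6_ein {c : ℝ} (hE : ∀ a b, Rc R a b = if a = b then c else 0) : I6 R = c * nS R := by
  unfold I6
  have h1 : ∀ a, ∑ b, Rc R a b * SS R a b = c * SS R a a := by
    intro a
    rw [Finset.sum_eq_single a]
    · rw [hE, if_pos rfl]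
    · intro b _ hb
      rw [hE, if_neg (Ne.symm hb), zero_mul]
    · simp
  rw [Finset.sum_congr rfl fun a _ => h1 a, ← Finset.mul_sum]
  rfl

end

/-- the curvature term of the Bochner formula for an Einstein curvature tensor with Ricci
curvature `c` -/
noncomputable def boch (c : ℝ) (R : Ten) : ℝ := I7 R + 4 * I8 R - 2 * c * nS R

namespace FrameBundle

variable {P : Type} [MeasurableSpace P] {μ : Measure P} (F : FrameBundle P μ)

theorem ev_C (p : P) : F.ev p F.C = I6 (F.T p) - I7 (F.T p) / 2 - 2 * I8 (F.T p) := by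
  unfold C
  simp only [map_sum, map_mul, ricci_identity, ev_R, Finset.mul_sum, mul_add,
    Finset.sum_add_distrib]
  rw [c1 (F.T_curv p), c2 (F.T_curv p), c3 (F.T_curv p), c4 (F.T_curv p)]
  ring

theorem dR2_ev {c : ℝ} (hE : F.Einstein c) (p : P) :
    F.ev p F.dR2 = 2 * ∑ m, F.ev p (F.H m (F.X m)) + boch c (F.T p) := by
  rw [F.dR2_div hE, map_sub, map_smul, map_smul, map_sum, ev_C, I6_ein (hE p), smul_eq_mul,
    smul_eq_mul]
  unfold boch
  ring

theorem ev_integrable (f : F.S) : Integrable (fun p => F.ev p f) μ := F.integrable f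

theorem integral_H (m : Fin 6) (f : F.S) : ∫ p, F.ev p (F.H m f) ∂μ = 0 := F.stokes m f

/-- The integrated Bochner formula: `∫ (I7 + 4 I8 - 2 c |R|²) = ∫ |∇R|²`. -/
theorem integral_boch {c : ℝ} (hE : F.Einstein c) :
    Integrable (fun p => boch c (F.T p)) μ ∧
      ∫ p, boch c (F.T p) ∂μ = ∫ p, F.ev p F.dR2 ∂μ := by
  have h1 : (fun p => boch c (F.T p)) =
      fun p => F.ev p F.dR2 - 2 * ∑ m, F.ev p (F.H m (F.X m)) := by
    funext p
    rw [F.dR2_ev hE p]
    ring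
  have hs : Integrable (fun p => ∑ m, F.ev p (F.H m (F.X m))) μ :=
    integrable_finsetSum _ fun m _ => F.ev_integrable _
  rw [h1]
  refine ⟨(F.ev_integrable _).sub (hs.const_mul 2), ?_⟩
  rw [integral_sub (F.ev_integrable _) (hs.const_mul 2), integral_const_mul,
    integral_finsetSum _ fun m _ => F.ev_integrable _]
  simp only [integral_H, Finset.sum_const_zero, mul_zero, sub_zero]

theorem integral_boch_nonneg {c : ℝ} (hE : F.Einstein c) : 0 ≤ ∫ p, boch c (F.T p) ∂μ := by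
  rw [(F.integral_boch hE).2]
  exact integral_nonneg fun p => F.dR2_nonneg p

end FrameBundle
end Pool.Agent.K1H63.Boch
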