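import Pool.Agent.W714.HE.Main
import Pool.Agent.K1H63.Boch.Integral
import Pool.Agent.K1H63.Boch.FrameData
import Pool.Agent.K1H63.Boch.Fin

/-!
# The Gauss-Bonnet-Chern integral of an Einstein metric with an upper curvature bound
-/

set_option autoImplicit false

open scoped BigOperators
open MeasureTheory

namespace Pool.Agent.K1H63.Boch

open Hopf6 Pool.Agent.W714.HE

/-- the function of a unit vector whose average is `(gb R - 16 boch 5 R) / 64` -/
noncomputable def fB (R : Ten) (x : Fin 6 → ℝ) : ℝ := 1250 - 40 * mJJ R x - 48 * mJSJ R x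

theorem av_fB {ι : Type} [Fintype ι] (D : Design ι) {R : Ten} (hR : IsCurv R)
    (hE : ∀ a b, Rc R a b = if a = b then 5 else 0) :
    64 * D.av (fB R) = gb R - 16 * boch 5 R := by
  have e : fB R = comb R 1250 0 0 0 (-40) 0 0 0 0 0 0 0 0 0 0 0 0 0 0 0 (-48) 0 := by
    funext x
    unfold fB comb
    ring
  unfold boch
  rw [e, av_comb D hR, gb_eq hR, sc_ein hE, nR_ein hE, I4_ein hE, I5_ein hE,
    Pool.Agent.W714.HE.I6_ein hE]
  ring

theorem core_up {R : Ten} (hR : IsCurv R) (hE : ∀ a b, Rc R a b = if a = b then 5 else 0) {k : ℝ}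
    (h : SecLE R k) : 64 * phi k ≤ gb R - 16 * boch 5 R := by
  obtain ⟨ι, _, ⟨D⟩⟩ := exists_design
  have h1 : 0 ≤ D.av (fun x => fB R x + -(phi k)) :=
    D.av_nonneg fun i => by
      obtain ⟨w, l, o1, o2, hl, hs, hrow, t2, -, t4⟩ := frame_data hR hE (D.unit i)
      obtain ⟨s1, s2⟩ := frame_sec (R := R) (D.unit i) o1 o2 (Q := fun t => t ≤ k) h
      have := fin_ineqB k l (fun i j => quad R (w i) (w j)) (fun i j => quad_symm hR _ _)
        (fun i => quad_self hR _) s2 hrow (fun i => by rw [← hl i]; exact s1 i) hs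
      unfold fB
      rw [t2, t4]
      linarith
  have h2 : D.av (fun x => fB R x + -(phi k)) = D.av (fB R) + -(phi k) := by
    rw [Design.av_add, Design.av_one]
  have h3 := av_fB D hR hE
  rw [h2] at h1
  linarith

theorem boch_scl (c k : ℝ) (R : Ten) : boch (k * c) (scl k R) = k ^ 3 * boch c R := by
  have h7 : I7 (scl k R) = k ^ 3 * I7 R := by
    unfold I7 scl
    simp only [Finset.mul_sum]
    refine Finset.sum_congr rfl fun _ _ => Finset.sum_congr rfl fun _ _ =>
      Finset.sum_congr rfl fun _ _ => Finset.sum_congr rfl fun _ _ =>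
      Finset.sum_congr rfl fun _ _ => Finset.sum_congr rfl fun _ _ => ?_
    ring
  have h8 : I8 (scl k R) = k ^ 3 * I8 R := by
    unfold I8 scl
    simp only [Finset.mul_sum]
    refine Finset.sum_congr rfl fun _ _ => Finset.sum_congr rfl fun _ _ =>
      Finset.sum_congr rfl fun _ _ => Finset.sum_congr rfl fun _ _ =>
      Finset.sum_congr rfl fun _ _ => Finset.sum_congr rfl fun _ _ => ?_
    ring
  have hn : nS (scl k R) = k ^ 2 * nS R := by
    unfold nS scl
    simp only [Finset.mul_sum]
    refine Finset.sum_congr rfl fun _ _ => Finset.sum_congr rfl fun _ _ =>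
      Finset.sum_congr rfl fun _ _ => Finset.sum_congr rfl fun _ _ => ?_
    ring
  unfold boch
  rw [h7, h8, hn]
  ring

theorem Rc_scl (k : ℝ) (R : Ten) (a b : Fin 6) : Rc (scl k R) a b = k * Rc R a b := by
  unfold Rc scl
  rw [Finset.mul_sum]

theorem quad_scl' (k : ℝ) (R : Ten) (y z : Fin 6 → ℝ) : quad (scl k R) y z = k * quad R y z := by
  rw [quad_scl]

/-- the pointwise inequality -/
theorem core_up_scaled {R : Ten} (hR : IsCurv R) {κ k : ℝ} (hκ : 0 < κ)
    (hE : ∀ a b, Rc R a b = if a = b then 5 * κ else 0) (h : SecLE R (k * κ)) :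
    64 * phi k * κ ^ 3 ≤ gb R - 16 * boch (5 * κ) R := by
  have h1 := core_up (scl_curv hR κ⁻¹) (R := scl κ⁻¹ R) (k := k) (by
    intro a b
    rw [Rc_scl, hE]
    split_ifs
    · field_simp
    · simp) (by
    intro y z hy hz hyz
    rw [quad_scl']
    calc κ⁻¹ * quad R y z ≤ κ⁻¹ * (k * κ) :=
          mul_le_mul_of_nonneg_left (h y z hy hz hyz) (inv_nonneg.2 hκ.le)
      _ = k := by field_simp)
  have h2 : boch 5 (scl κ⁻¹ R) = κ⁻¹ ^ 3 * boch (5 * κ) R := by
    rw [← boch_scl]
    congr 1
    field_simp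
  rw [gb_scl, h2] at h1
  have hκ3 : 0 < κ ^ 3 := by positivity
  calc 64 * phi k * κ ^ 3 ≤ (κ⁻¹ ^ 3 * gb R - 16 * (κ⁻¹ ^ 3 * boch (5 * κ) R)) * κ ^ 3 :=
        mul_le_mul_of_nonneg_right h1 hκ3.le
    _ = gb R - 16 * boch (5 * κ) R := by field_simp

/-- a vector field as a derivation -/
noncomputable def IsField.der {P : Type} {S : Subalgebra ℝ (P → ℝ)} {D : (P → ℝ) → P → ℝ}
    (h : IsField S D) : Derivation ℝ S S :=
  Derivation.mk'
    { toFun := fun f => ⟨D f, h.mem f f.2⟩
      map_add' := fun f g => Subtype.ext (h.add f f.2 g g.2)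
      map_smul' := fun c f => Subtype.ext (h.smul c f f.2) }
    (fun f g => Subtype.ext (h.leibniz f f.2 g g.2))

theorem IsField.der_apply {P : Type} {S : Subalgebra ℝ (P → ℝ)} {D : (P → ℝ) → P → ℝ}
    (h : IsField S D) (f : S) : (h.der f : P → ℝ) = D f := rfl

namespace FrameCalculus

variable {P : Type} [MeasurableSpace P] {μ : Measure P} (F : FrameCalculus P μ)

/-- the same data with derivations -/
noncomputable def bundle : FrameBundle P μ where
  S := F.S
  integrable := fun f => F.integrable f f.2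
  H := fun i => (F.H_field i).der
  V := fun a b => (F.V_field a b).der
  R := fun a b c d => ⟨F.R a b c d, F.R_mem a b c d⟩
  curv := F.curv
  bianchi2 := fun m a b c d => Subtype.ext (funext fun p => F.bianchi2 m a b c d p)
  cartan := fun i j f => Subtype.ext (funext fun p => by
    have h := F.cartan i j f f.2 p
    have e1 : ((∑ a, ∑ b, (⟨F.R i j a b, F.R_mem i j a b⟩ : F.S) * (F.V_field a b).der f : F.S) :
        P → ℝ) p = ∑ a, ∑ b, F.R i j a b p * F.V a b f p := by
      simp only [AddSubmonoidClass.coe_finsetSum, Finset.sum_apply]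
      rfl
    change F.H i (F.H j f) p - F.H j (F.H i f) p = (1 / 2) * _
    rw [h, e1])
  equivariant := fun a b i j k l => Subtype.ext (funext fun p => by
    have h := F.equivariant a b i j k l p
    change F.V a b (F.R i j k l) p = _
    rw [h]
    rfl)
  stokes := fun i f => F.stokes i f f.2

theorem bundle_T (p : P) : F.bundle.T p = F.T p := rfl

end FrameCalculus

namespace FrameBundle

variable {P : Type} [MeasurableSpace P] {μ : Measure P} (F : FrameBundle P μ)

/-- the integrand as a smooth function -/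
noncomputable def gbS : F.S :=
  ∑ σ : Equiv.Perm (Fin 6), ∑ τ : Equiv.Perm (Fin 6),
    (((Equiv.Perm.sign σ : ℤ) : ℝ) * ((Equiv.Perm.sign τ : ℤ) : ℝ)) •
      (F.R (σ 0) (σ 1) (τ 0) (τ 1) * F.R (σ 2) (σ 3) (τ 2) (τ 3) *
        F.R (σ 4) (σ 5) (τ 4) (τ 5))

theorem ev_gbS (p : P) : F.ev p F.gbS = gb (F.T p) := by
  unfold gbS gb
  simp only [map_sum, map_smul, map_mul, smul_eq_mul, ev_R]

theorem gb_integrable : Integrable (fun p => gb (F.T p)) μ := by
  have := F.integrable F.gbS
  refine this.congr (Filter.Eventually.of_forall fun p => ?_)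
  exact F.ev_gbS p

end FrameBundle

namespace FrameCalculus

variable {P : Type} [MeasurableSpace P] {μ : Measure P} (F : FrameCalculus P μ)

theorem gb_integrable : Integrable (fun p => gb (F.T p)) μ := F.bundle.gb_integrable

theorem gbc_integrable : Integrable F.gbc μ := F.gb_integrable.const_mul _

theorem boch_integrable {c : ℝ} (hE : ∀ p, IsEinstein (F.T p) c) :
    Integrable (fun p => boch c (F.T p)) μ := (F.bundle.integral_boch hE).1

/-- The Bochner formula: the integral is nonnegative. -/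
theorem integral_boch_nonneg {c : ℝ} (hE : ∀ p, IsEinstein (F.T p) c) :
    0 ≤ ∫ p, boch c (F.T p) ∂μ := F.bundle.integral_boch_nonneg hE

/-- The integral of the Gauss-Bonnet-Chern integrand of a closed Einstein manifold of dimension six
with an upper curvature bound. -/
theorem integral_up [IsFiniteMeasure μ] {κ k : ℝ} (hκ : 0 < κ)
    (hE : ∀ p, IsEinstein (F.T p) (5 * κ)) (h : ∀ p, SecLE (F.T p) (k * κ)) :
    phi k / 90 * roundGB κ * μ.real Set.univ ≤ ∫ p, F.gbc p ∂μ := by
  have hb := F.integral_boch_nonneg hE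
  have hbi := F.boch_integrable hE
  have h1 : ∫ _p, 64 * phi k * κ ^ 3 ∂μ ≤ ∫ p, (gb (F.T p) - 16 * boch (5 * κ) (F.T p)) ∂μ :=
    integral_mono (integrable_const _) (F.gb_integrable.sub (hbi.const_mul 16)) fun p =>
      core_up_scaled (F.curv p) hκ (hE p) (h p)
  have e1 : ∫ p, (gb (F.T p) - 16 * boch (5 * κ) (F.T p)) ∂μ =
      ∫ p, gb (F.T p) ∂μ - 16 * ∫ p, boch (5 * κ) (F.T p) ∂μ := by
    rw [integral_sub F.gb_integrable (hbi.const_mul 16), integral_const_mul]
  rw [e1, integral_const, smul_eq_mul] at h1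
  have h2 : μ.real Set.univ * (64 * phi k * κ ^ 3) ≤ ∫ p, gb (F.T p) ∂μ := by linarith
  have hpi := Real.pi_pos
  unfold gbc
  rw [integral_const_mul]
  calc phi k / 90 * roundGB κ * μ.real Set.univ =
      1 / ((8 * Real.pi) ^ 3 * 6) * (μ.real Set.univ * (64 * phi k * κ ^ 3)) := by
        unfold roundGB
        field_simp
        ring
    _ ≤ _ := mul_le_mul_of_nonneg_left h2 (by positivity)

end FrameCalculus
end Pool.Agent.K1H63.Boch
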