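import Pool.Agent.K1H63.Boch.Bundle

/-!
# The Bochner formula for the curvature tensor of an Einstein metric, integrated
-/

set_option autoImplicit false

open scoped BigOperators
open MeasureTheory

namespace Pool.Agent.K1H63.Boch

open Hopf6

namespace FrameBundle

variable {P : Type} [MeasurableSpace P] {μ : Measure P} (F : FrameBundle P μ)

/-- the vector field whose divergence is integrated -/
def X (m : Fin 6) : F.S := ∑ a, ∑ b, ∑ c, ∑ d, F.R a b c d * F.H a (F.R m b c d)

/-- the commutator term -/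
def C : F.S := ∑ m, ∑ a, ∑ b, ∑ c, ∑ d,
  F.R a b c d * (F.H m (F.H a (F.R m b c d)) - F.H a (F.H m (F.R m b c d)))

theorem dR2_eq : F.dR2 = (2 : ℝ) • ∑ m, ∑ a, ∑ b, ∑ c, ∑ d,
    F.H m (F.R a b c d) * F.H a (F.R m b c d) := by
  have h1 : ∀ m a b c d, F.H m (F.R a b c d) * F.H m (F.R a b c d) =
      F.H m (F.R a b c d) * F.H a (F.R m b c d) + F.H m (F.R b a c d) * F.H b (F.R m a c d) := by
    intro m a b c d
    have h := F.bianchi2 m a b c d
    have e1 : F.H m (F.R b a c d) = - F.H m (F.R a b c d) := by rw [F.R_anti a b c d, map_neg]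
    have e2 : F.H a (F.R b m c d) = - F.H a (F.R m b c d) := by rw [F.R_anti m b c d, map_neg]
    rw [e2] at h
    rw [e1]
    linear_combination F.H m (F.R a b c d) * h
  unfold dR2
  simp only [h1, Finset.sum_add_distrib]
  have h2 : ∑ m, ∑ a, ∑ b, ∑ c, ∑ d, F.H m (F.R b a c d) * F.H b (F.R m a c d) =
      ∑ m, ∑ a, ∑ b, ∑ c, ∑ d, F.H m (F.R a b c d) * F.H a (F.R m b c d) :=
    Finset.sum_congr rfl fun m _ => Finset.sum_comm
  rw [h2, two_smul]

theorem dR2_div {c : ℝ} (hE : F.Einstein c) :
    F.dR2 = (2 : ℝ) • ∑ m, F.H m (F.X m) - (2 : ℝ) • F.C := by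
  rw [dR2_eq]
  have h1 : ∀ m, F.H m (F.X m) = ∑ a, ∑ b, ∑ c, ∑ d, (F.H m (F.R a b c d) * F.H a (F.R m b c d) +
      F.R a b c d * F.H m (F.H a (F.R m b c d))) := by
    intro m
    unfold X
    simp only [map_sum, Derivation.leibniz, smul_eq_mul]
    refine Finset.sum_congr rfl fun a _ => Finset.sum_congr rfl fun b _ =>
      Finset.sum_congr rfl fun c _ => Finset.sum_congr rfl fun d _ => ?_
    ring
  have h2 : ∑ m, ∑ a, ∑ b, ∑ c, ∑ d, F.R a b c d * F.H m (F.H a (F.R m b c d)) = F.C := by
    unfold C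
    simp only [mul_sub, Finset.sum_sub_distrib]
    have h3 : ∑ m, ∑ a, ∑ b, ∑ c, ∑ d, F.R a b c d * F.H a (F.H m (F.R m b c d)) = 0 := by
      rw [Finset.sum_comm]
      refine Finset.sum_eq_zero fun a _ => ?_
      rw [Finset.sum_comm]
      refine Finset.sum_eq_zero fun b _ => ?_
      rw [Finset.sum_comm]
      refine Finset.sum_eq_zero fun c _ => ?_
      rw [Finset.sum_comm]
      refine Finset.sum_eq_zero fun d _ => ?_
      rw [← Finset.mul_sum, ← map_sum, F.div_R hE b c d, map_zero, mul_zero]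
    rw [h3, sub_zero]
  rw [Finset.sum_congr rfl fun m _ => h1 m]
  simp only [Finset.sum_add_distrib]
  rw [h2, smul_add]
  abel

theorem kd_sum1 (f : Fin 6 → ℝ) (i : Fin 6) : ∑ a, kd a i * f a = f i := by simp [kd]

/-- the Ricci identity for the curvature tensor -/
theorem ricci_identity (p : P) (m n i j k l : Fin 6) :
    F.ev p (F.H m (F.H n (F.R i j k l)) - F.H n (F.H m (F.R i j k l))) =
      ∑ q, (F.T p m n i q * F.T p q j k l + F.T p m n j q * F.T p i q k l
        + F.T p m n k q * F.T p i j q l + F.T p m n l q * F.T p i j k q) := by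
  rw [F.cartan]
  simp only [F.equivariant, map_smul, map_sum, map_mul, map_add, map_sub, ev_R, smul_eq_mul]
  have hA : ∀ a b, F.T p m n b a = - F.T p m n a b := fun a b => anti' (F.T_curv p) m n a b
  have e1 : ∀ a b, F.T p m n a b * ((kd a i * F.T p b j k l - kd b i * F.T p a j k l)
      + (kd a j * F.T p i b k l - kd b j * F.T p i a k l)
      + (kd a k * F.T p i j b l - kd b k * F.T p i j a l)
      + (kd a l * F.T p i j k b - kd b l * F.T p i j k a)) =
      (kd a i * (F.T p m n a b * F.T p b j k l) + kd a j * (F.T p m n a b * F.T p i b k l)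
      + kd a k * (F.T p m n a b * F.T p i j b l) + kd a l * (F.T p m n a b * F.T p i j k b))
      + (kd b i * (F.T p m n b a * F.T p a j k l) + kd b j * (F.T p m n b a * F.T p i a k l)
      + kd b k * (F.T p m n b a * F.T p i j a l) + kd b l * (F.T p m n b a * F.T p i j k a)) := by
    intro a b
    rw [hA a b]
    ring
  simp only [e1]
  have e2 : ∑ a, ∑ b, ((kd a i * (F.T p m n a b * F.T p b j k l)
      + kd a j * (F.T p m n a b * F.T p i b k l)
      + kd a k * (F.T p m n a b * F.T p i j b l) + kd a l * (F.T p m n a b * F.T p i j k b))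
      + (kd b i * (F.T p m n b a * F.T p a j k l) + kd b j * (F.T p m n b a * F.T p i a k l)
      + kd b k * (F.T p m n b a * F.T p i j a l) + kd b l * (F.T p m n b a * F.T p i j k a))) =
      2 * ∑ a, ∑ b, (kd a i * (F.T p m n a b * F.T p b j k l)
      + kd a j * (F.T p m n a b * F.T p i b k l)
      + kd a k * (F.T p m n a b * F.T p i j b l)
      + kd a l * (F.T p m n a b * F.T p i j k b)) := by
    simp only [Finset.sum_add_distrib]
    have s : ∀ G : Fin 6 → Fin 6 → ℝ, ∑ a, ∑ b, G b a = ∑ a, ∑ b, G a b :=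
      fun G => Finset.sum_comm
    rw [s (fun a b => kd a i * (F.T p m n a b * F.T p b j k l)),
      s (fun a b => kd a j * (F.T p m n a b * F.T p i b k l)),
      s (fun a b => kd a k * (F.T p m n a b * F.T p i j b l)),
      s (fun a b => kd a l * (F.T p m n a b * F.T p i j k b))]
    ring
  rw [e2]
  have e3 : ∑ a, ∑ b, (kd a i * (F.T p m n a b * F.T p b j k l)
      + kd a j * (F.T p m n a b * F.T p i b k l)
      + kd a k * (F.T p m n a b * F.T p i j b l)
      + kd a l * (F.T p m n a b * F.T p i j k b)) =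
      ∑ q, (F.T p m n i q * F.T p q j k l + F.T p m n j q * F.T p i q k l
        + F.T p m n k q * F.T p i j q l + F.T p m n l q * F.T p i j k q) := by
    rw [Finset.sum_comm]
    refine Finset.sum_congr rfl fun q _ => ?_
    simp only [Finset.sum_add_distrib, kd_sum1]
  rw [e3]
  ring

end FrameBundle
end Pool.Agent.K1H63.Boch
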